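import Pool.Agent.H15.HLS.Targets

/-!
# Homogeneous latin squares of all large orders: linear algebra of the blocks
-/

set_option autoImplicit false

namespace Pool.Agent.H74.HLS

open Pool.Agent.H51.Homog Pool.Agent.H22.HSQ Pool.Agent.H15.HLS

theorem key {v : ℕ} (hv : Nat.Coprime v 30) (z w : ZMod v) (h : 60 * (z - w) = 0) : z = w := by
  have h2 : Nat.Coprime v 2 := Nat.Coprime.coprime_dvd_right (by norm_num) hv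
  have h60 : Nat.Coprime 60 v := (Nat.Coprime.mul_right hv h2).symm
  have hu : IsUnit ((60 : ℕ) : ZMod v) := (ZMod.isUnit_iff_coprime 60 v).2 h60
  have h3 : ((60 : ℕ) : ZMod v) * (z - w) = 0 := by exact_mod_cast h
  exact sub_eq_zero.1 (hu.mul_right_eq_zero.1 h3)

theorem L0 {v : ℕ} (hv : Nat.Coprime v 30) {x₁ y₁ x₂ y₂ x₃ y₃ x₄ y₄ : ZMod v}
    (h1 : x₁ = x₂) (h2 : x₃ = x₄) (h3 : y₁ = y₃)
    (h4 : y₂ = y₄) (h5 : x₁ + y₁ = x₄ + y₄) (h6 : x₂ + y₂ = x₃ + y₃) :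
    (x₁ = x₂ ∧ y₁ = y₂) ∧ (x₁ = x₃ ∧ y₁ = y₃) ∧ x₁ = x₄ ∧ y₁ = y₄ := by
  refine ⟨⟨?_, ?_⟩, ⟨?_, ?_⟩, ?_, ?_⟩
  · exact key hv _ _ (by linear_combination 60 * h1)
  · exact key hv _ _ (by linear_combination -30 * h1 - 30 * h2 + 30 * h3 - 30 * h4 + 30 * h5 -
      30 * h6)
  · exact key hv _ _ (by linear_combination 30 * h1 - 30 * h2 - 30 * h3 - 30 * h4 + 30 * h5 +
      30 * h6)
  · exact key hv _ _ (by linear_combination 60 * h3)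
  · exact key hv _ _ (by linear_combination 30 * h1 + 30 * h2 - 30 * h3 - 30 * h4 + 30 * h5 +
      30 * h6)
  · exact key hv _ _ (by linear_combination -30 * h1 - 30 * h2 + 30 * h3 + 30 * h4 + 30 * h5 -
      30 * h6)

theorem L1 {v : ℕ} (hv : Nat.Coprime v 30) {x₁ y₁ x₂ y₂ x₃ y₃ x₄ y₄ : ZMod v}
    (h1 : x₁ + 3 * y₁ = x₂ + 3 * y₂) (h2 : x₃ = x₄) (h3 : y₁ = y₃)
    (h4 : y₂ = y₄) (h5 : x₁ + y₁ = x₄ + y₄) (h6 : x₂ + y₂ = x₃ + y₃) :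
    (x₁ = x₂ ∧ y₁ = y₂) ∧ (x₁ = x₃ ∧ y₁ = y₃) ∧ x₁ = x₄ ∧ y₁ = y₄ := by
  refine ⟨⟨?_, ?_⟩, ⟨?_, ?_⟩, ?_, ?_⟩
  · exact key hv _ _ (by linear_combination -120 * h1 - 180 * h2 + 180 * h3 - 180 * h4 +
      180 * h5 - 180 * h6)
  · exact key hv _ _ (by linear_combination 60 * h1 + 60 * h2 - 60 * h3 + 60 * h4 - 60 * h5 +
      60 * h6)
  · exact key hv _ _ (by linear_combination -60 * h1 - 120 * h2 + 60 * h3 - 120 * h4 +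
      120 * h5 - 60 * h6)
  · exact key hv _ _ (by linear_combination 60 * h3)
  · exact key hv _ _ (by linear_combination -60 * h1 - 60 * h2 + 60 * h3 - 120 * h4 +
      120 * h5 - 60 * h6)
  · exact key hv _ _ (by linear_combination 60 * h1 + 60 * h2 - 60 * h3 + 120 * h4 - 60 * h5 +
      60 * h6)

theorem L2 {v : ℕ} (hv : Nat.Coprime v 30) {x₁ y₁ x₂ y₂ x₃ y₃ x₄ y₄ : ZMod v}
    (h1 : x₁ = x₂) (h2 : x₃ + 3 * y₃ = x₄ + 3 * y₄) (h3 : y₁ = y₃)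
    (h4 : y₂ = y₄) (h5 : x₁ + y₁ = x₄ + y₄) (h6 : x₂ + y₂ = x₃ + y₃) :
    (x₁ = x₂ ∧ y₁ = y₂) ∧ (x₁ = x₃ ∧ y₁ = y₃) ∧ x₁ = x₄ ∧ y₁ = y₄ := by
  refine ⟨⟨?_, ?_⟩, ⟨?_, ?_⟩, ?_, ?_⟩
  · exact key hv _ _ (by linear_combination 60 * h1)
  · exact key hv _ _ (by linear_combination 60 * h1 + 60 * h2 + 120 * h3 - 120 * h4 -
      60 * h5 + 60 * h6)
  · exact key hv _ _ (by linear_combination 120 * h1 + 60 * h2 + 60 * h3 - 120 * h4 -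
      60 * h5 + 120 * h6)
  · exact key hv _ _ (by linear_combination 60 * h3)
  · exact key hv _ _ (by linear_combination -60 * h1 - 60 * h2 - 120 * h3 + 60 * h4 +
      120 * h5 - 60 * h6)
  · exact key hv _ _ (by linear_combination 60 * h1 + 60 * h2 + 120 * h3 - 60 * h4 - 60 * h5 +
      60 * h6)

theorem L3 {v : ℕ} (hv : Nat.Coprime v 30) {x₁ y₁ x₂ y₂ x₃ y₃ x₄ y₄ : ZMod v}
    (h1 : x₁ = x₂) (h2 : x₃ = x₄) (h3 : x₁ + 3 * y₁ = x₃ + 3 * y₃)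
    (h4 : y₂ = y₄) (h5 : x₁ + y₁ = x₄ + y₄) (h6 : x₂ + y₂ = x₃ + y₃) :
    (x₁ = x₂ ∧ y₁ = y₂) ∧ (x₁ = x₃ ∧ y₁ = y₃) ∧ x₁ = x₄ ∧ y₁ = y₄ := by
  refine ⟨⟨?_, ?_⟩, ⟨?_, ?_⟩, ?_, ?_⟩
  · exact key hv _ _ (by linear_combination 60 * h1)
  · exact key hv _ _ (by linear_combination -36 * h1 - 24 * h2 + 12 * h3 - 24 * h4 + 24 * h5 -
      36 * h6)
  · exact key hv _ _ (by linear_combination 36 * h1 - 36 * h2 - 12 * h3 - 36 * h4 + 36 * h5 +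
      36 * h6)
  · exact key hv _ _ (by linear_combination -12 * h1 + 12 * h2 + 24 * h3 + 12 * h4 - 12 * h5 -
      12 * h6)
  · exact key hv _ _ (by linear_combination 36 * h1 + 24 * h2 - 12 * h3 - 36 * h4 + 36 * h5 +
      36 * h6)
  · exact key hv _ _ (by linear_combination -36 * h1 - 24 * h2 + 12 * h3 + 36 * h4 + 24 * h5 -
      36 * h6)

theorem L4 {v : ℕ} (hv : Nat.Coprime v 30) {x₁ y₁ x₂ y₂ x₃ y₃ x₄ y₄ : ZMod v}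
    (h1 : x₁ = x₂) (h2 : x₃ = x₄) (h3 : y₁ = y₃)
    (h4 : x₂ + 3 * y₂ = x₄ + 3 * y₄) (h5 : x₁ + y₁ = x₄ + y₄) (h6 : x₂ + y₂ = x₃ + y₃) :
    (x₁ = x₂ ∧ y₁ = y₂) ∧ (x₁ = x₃ ∧ y₁ = y₃) ∧ x₁ = x₄ ∧ y₁ = y₄ := by
  refine ⟨⟨?_, ?_⟩, ⟨?_, ?_⟩, ?_, ?_⟩
  · exact key hv _ _ (by linear_combination 60 * h1)
  · exact key hv _ _ (by linear_combination -36 * h1 - 24 * h2 + 24 * h3 - 12 * h4 + 36 * h5 -
      24 * h6)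
  · exact key hv _ _ (by linear_combination 24 * h1 - 24 * h2 - 36 * h3 - 12 * h4 + 36 * h5 +
      36 * h6)
  · exact key hv _ _ (by linear_combination 60 * h3)
  · exact key hv _ _ (by linear_combination 24 * h1 + 36 * h2 - 36 * h3 - 12 * h4 + 36 * h5 +
      36 * h6)
  · exact key hv _ _ (by linear_combination -24 * h1 - 36 * h2 + 36 * h3 + 12 * h4 + 24 * h5 -
      36 * h6)

theorem L5 {v : ℕ} (hv : Nat.Coprime v 30) {x₁ y₁ x₂ y₂ x₃ y₃ x₄ y₄ : ZMod v}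
    (h1 : x₁ = x₂) (h2 : x₃ = x₄) (h3 : y₁ = y₃)
    (h4 : y₂ = y₄) (h5 : x₁ + 3 * y₁ = x₄ + 3 * y₄) (h6 : x₂ + y₂ = x₃ + y₃) :
    (x₁ = x₂ ∧ y₁ = y₂) ∧ (x₁ = x₃ ∧ y₁ = y₃) ∧ x₁ = x₄ ∧ y₁ = y₄ := by
  refine ⟨⟨?_, ?_⟩, ⟨?_, ?_⟩, ?_, ?_⟩
  · exact key hv _ _ (by linear_combination 60 * h1)
  · exact key hv _ _ (by linear_combination -15 * h1 - 15 * h2 + 15 * h3 - 45 * h4 + 15 * h5 -
      15 * h6)
  · exact key hv _ _ (by linear_combination 45 * h1 - 15 * h2 - 45 * h3 - 45 * h4 + 15 * h5 +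
      45 * h6)
  · exact key hv _ _ (by linear_combination 60 * h3)
  · exact key hv _ _ (by linear_combination 45 * h1 + 45 * h2 - 45 * h3 - 45 * h4 + 15 * h5 +
      45 * h6)
  · exact key hv _ _ (by linear_combination -15 * h1 - 15 * h2 + 15 * h3 + 15 * h4 + 15 * h5 -
      15 * h6)

theorem L6 {v : ℕ} (hv : Nat.Coprime v 30) {x₁ y₁ x₂ y₂ x₃ y₃ x₄ y₄ : ZMod v}
    (h1 : x₁ = x₂) (h2 : x₃ = x₄) (h3 : y₁ = y₃)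
    (h4 : y₂ = y₄) (h5 : x₁ + y₁ = x₄ + y₄) (h6 : x₂ + 3 * y₂ = x₃ + 3 * y₃) :
    (x₁ = x₂ ∧ y₁ = y₂) ∧ (x₁ = x₃ ∧ y₁ = y₃) ∧ x₁ = x₄ ∧ y₁ = y₄ := by
  refine ⟨⟨?_, ?_⟩, ⟨?_, ?_⟩, ?_, ?_⟩
  · exact key hv _ _ (by linear_combination 60 * h1)
  · exact key hv _ _ (by linear_combination -15 * h1 - 15 * h2 + 45 * h3 - 15 * h4 + 15 * h5 -
      15 * h6)
  · exact key hv _ _ (by linear_combination 15 * h1 - 45 * h2 - 45 * h3 - 45 * h4 + 45 * h5 +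
      15 * h6)
  · exact key hv _ _ (by linear_combination 60 * h3)
  · exact key hv _ _ (by linear_combination 15 * h1 + 15 * h2 - 45 * h3 - 45 * h4 + 45 * h5 +
      15 * h6)
  · exact key hv _ _ (by linear_combination -15 * h1 - 15 * h2 + 45 * h3 + 45 * h4 + 15 * h5 -
      15 * h6)

theorem L7 {v : ℕ} (hv : Nat.Coprime v 30) {x₁ y₁ x₂ y₂ x₃ y₃ x₄ y₄ : ZMod v}
    (h1 : x₁ + 3 * y₁ = x₂ + 3 * y₂) (h2 : x₃ + 3 * y₃ = x₄ + 3 * y₄) (h3 : y₁ = y₃)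
    (h4 : y₂ = y₄) (h5 : x₁ + y₁ = x₄ + y₄) (h6 : x₂ + y₂ = x₃ + y₃) :
    (x₁ = x₂ ∧ y₁ = y₂) ∧ (x₁ = x₃ ∧ y₁ = y₃) ∧ x₁ = x₄ ∧ y₁ = y₄ := by
  refine ⟨⟨?_, ?_⟩, ⟨?_, ?_⟩, ?_, ?_⟩
  · exact key hv _ _ (by linear_combination 15 * h1 - 45 * h2 - 90 * h3 + 90 * h4 + 45 * h5 -
      45 * h6)
  · exact key hv _ _ (by linear_combination 15 * h1 + 15 * h2 + 30 * h3 - 30 * h4 - 15 * h5 +
      15 * h6)
  · exact key hv _ _ (by linear_combination 30 * h1 - 30 * h2 - 120 * h3 + 60 * h4 + 30 * h5 +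
      30 * h6)
  · exact key hv _ _ (by linear_combination 60 * h3)
  · exact key hv _ _ (by linear_combination -15 * h1 - 15 * h2 - 30 * h3 - 30 * h4 + 75 * h5 -
      15 * h6)
  · exact key hv _ _ (by linear_combination 15 * h1 + 15 * h2 + 30 * h3 + 30 * h4 - 15 * h5 +
      15 * h6)

theorem L8 {v : ℕ} (hv : Nat.Coprime v 30) {x₁ y₁ x₂ y₂ x₃ y₃ x₄ y₄ : ZMod v}
    (h1 : x₁ = x₂) (h2 : x₃ = x₄) (h3 : x₁ + 3 * y₁ = x₃ + 3 * y₃)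
    (h4 : x₂ + 3 * y₂ = x₄ + 3 * y₄) (h5 : x₁ + y₁ = x₄ + y₄) (h6 : x₂ + y₂ = x₃ + y₃) :
    (x₁ = x₂ ∧ y₁ = y₂) ∧ (x₁ = x₃ ∧ y₁ = y₃) ∧ x₁ = x₄ ∧ y₁ = y₄ := by
  refine ⟨⟨?_, ?_⟩, ⟨?_, ?_⟩, ?_, ?_⟩
  · exact key hv _ _ (by linear_combination 60 * h1)
  · exact key hv _ _ (by linear_combination -40 * h1 - 20 * h2 + 10 * h3 - 10 * h4 + 30 * h5 -
      30 * h6)
  · exact key hv _ _ (by linear_combination 30 * h1 - 30 * h2 - 15 * h3 - 15 * h4 + 45 * h5 +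
      45 * h6)
  · exact key hv _ _ (by linear_combination -10 * h1 + 10 * h2 + 25 * h3 + 5 * h4 - 15 * h5 -
      15 * h6)
  · exact key hv _ _ (by linear_combination 30 * h1 + 30 * h2 - 15 * h3 - 15 * h4 + 45 * h5 +
      45 * h6)
  · exact key hv _ _ (by linear_combination -30 * h1 - 30 * h2 + 15 * h3 + 15 * h4 + 15 * h5 -
      45 * h6)

theorem L9 {v : ℕ} (hv : Nat.Coprime v 30) {x₁ y₁ x₂ y₂ x₃ y₃ x₄ y₄ : ZMod v}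
    (h1 : x₁ = x₂) (h2 : x₃ = x₄) (h3 : y₁ = y₃)
    (h4 : y₂ = y₄) (h5 : x₁ + 3 * y₁ = x₄ + 3 * y₄) (h6 : x₂ + 3 * y₂ = x₃ + 3 * y₃) :
    (x₁ = x₂ ∧ y₁ = y₂) ∧ (x₁ = x₃ ∧ y₁ = y₃) ∧ x₁ = x₄ ∧ y₁ = y₄ := by
  refine ⟨⟨?_, ?_⟩, ⟨?_, ?_⟩, ?_, ?_⟩
  · exact key hv _ _ (by linear_combination 60 * h1)
  · exact key hv _ _ (by linear_combination -10 * h1 - 10 * h2 + 30 * h3 - 30 * h4 + 10 * h5 -
      10 * h6)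
  · exact key hv _ _ (by linear_combination 30 * h1 - 30 * h2 - 90 * h3 - 90 * h4 + 30 * h5 +
      30 * h6)
  · exact key hv _ _ (by linear_combination 60 * h3)
  · exact key hv _ _ (by linear_combination 30 * h1 + 30 * h2 - 90 * h3 - 90 * h4 + 30 * h5 +
      30 * h6)
  · exact key hv _ _ (by linear_combination -10 * h1 - 10 * h2 + 30 * h3 + 30 * h4 + 10 * h5 -
      10 * h6)

theorem pf_LIN : T_LIN := by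
  intro v hv x₁ y₁ x₂ y₂ x₃ y₃ x₄ y₄ a a' b b' s s' h1 h2 h3 h4 h5 h6 n1 n2 n3 n4 n5 n6 n7 n8 n9
    n10 n11 n12
  rcases h1 with ⟨ha, e1⟩ | ⟨ha, e1⟩ <;> rcases h2 with ⟨ha', e2⟩ | ⟨ha', e2⟩ <;>
  rcases h3 with ⟨hb, e3⟩ | ⟨hb, e3⟩ <;> rcases h4 with ⟨hb', e4⟩ | ⟨hb', e4⟩ <;>
  rcases h5 with ⟨hs, e5⟩ | ⟨hs, e5⟩ <;> rcases h6 with ⟨hs', e6⟩ | ⟨hs', e6⟩ <;>
  first
  | exact (n1 ⟨ha, hb⟩).elim
  | exact (n2 ⟨ha, hb'⟩).elim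
  | exact (n3 ⟨ha, hs⟩).elim
  | exact (n4 ⟨ha, hs'⟩).elim
  | exact (n5 ⟨ha', hb⟩).elim
  | exact (n6 ⟨ha', hb'⟩).elim
  | exact (n7 ⟨ha', hs⟩).elim
  | exact (n8 ⟨ha', hs'⟩).elim
  | exact (n9 ⟨hb, hs⟩).elim
  | exact (n10 ⟨hb, hs'⟩).elim
  | exact (n11 ⟨hb', hs⟩).elim
  | exact (n12 ⟨hb', hs'⟩).elim
  | exact L0 hv e1 e2 e3 e4 e5 e6
  | exact L1 hv e1 e2 e3 e4 e5 e6
  | exact L2 hv e1 e2 e3 e4 e5 e6
  | exact L3 hv e1 e2 e3 e4 e5 e6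
  | exact L4 hv e1 e2 e3 e4 e5 e6
  | exact L5 hv e1 e2 e3 e4 e5 e6
  | exact L6 hv e1 e2 e3 e4 e5 e6
  | exact L7 hv e1 e2 e3 e4 e5 e6
  | exact L8 hv e1 e2 e3 e4 e5 e6
  | exact L9 hv e1 e2 e3 e4 e5 e6

end Pool.Agent.H74.HLS
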